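import Mathlib

/-! The eigenvalues of a small perturbation: the abstract part. -/

set_option autoImplicit false

open Filter Topology

namespace Pool.Agent.U742.SP

/-- the eigenvalues `π² (k + 1)²` -/
noncomputable def mu (k : ℕ) : ℝ := Real.pi ^ 2 * ((k : ℝ) + 1) ^ 2

lemma pi_sq_lo : (9.8 : ℝ) < Real.pi ^ 2 := by
  have := Real.pi_gt_d2
  nlinarith

lemma pi_sq_hi : Real.pi ^ 2 < (9.87 : ℝ) := by
  have h1 := Real.pi_lt_d4
  have h2 := Real.pi_pos
  nlinarith

lemma gap {k l : ℕ} (h : k < l) : mu k + 29 ≤ mu l := by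
  unfold mu
  have h1 : (k : ℝ) + 1 ≤ l := by exact_mod_cast h
  have h2 : (0 : ℝ) ≤ k := Nat.cast_nonneg k
  have h3 : ((k : ℝ) + 1) ^ 2 + 3 ≤ ((l : ℝ) + 1) ^ 2 := by nlinarith
  have h4 := pi_sq_lo
  nlinarith

lemma ex_of {a d : ℕ → ℝ} {s τ : ℝ} (h0 : ∀ k, 0 ≤ a k) (h1 : HasSum a 1)
    (h2 : HasSum (fun k => d k ^ 2 * a k) s) (hs : s ≤ τ ^ 2) (hτ : 0 < τ) : ∃ k, |d k| ≤ τ := by
  by_contra hc
  push Not at hc
  have h3 : HasSum (fun k => d k ^ 2 * a k - τ ^ 2 * a k) (s - τ ^ 2 * 1) := h2.sub (h1.mul_left _)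
  have h4 : ∀ k, 0 ≤ d k ^ 2 * a k - τ ^ 2 * a k := by
    intro k
    have h5 : τ ^ 2 ≤ d k ^ 2 := by
      rw [← sq_abs (d k)]
      exact pow_le_pow_left₀ hτ.le (hc k).le 2
    nlinarith [h0 k]
  have h5 : s - τ ^ 2 * 1 = 0 := le_antisymm (by linarith) (h3.nonneg h4)
  rw [h5] at h3
  have h6 := (hasSum_zero_iff_of_nonneg h4).1 h3
  have h7 : a = 0 := by
    funext k
    have h8 : d k ^ 2 * a k - τ ^ 2 * a k = 0 := congrFun h6 k
    have h9 : τ ^ 2 < d k ^ 2 := by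
      rw [← sq_abs (d k)]
      exact pow_lt_pow_left₀ (hc k) hτ.le (by norm_num)
    have h10 : (d k ^ 2 - τ ^ 2) * a k = 0 := by rw [sub_mul]; exact h8
    rcases mul_eq_zero.1 h10 with h | h
    · linarith
    · exact h
  rw [h7] at h1
  have := h1.unique hasSum_zero
  norm_num at this

lemma rest {a d : ℕ → ℝ} {s τ : ℝ} (h0 : ∀ k, 0 ≤ a k) (h1 : HasSum a 1)
    (h2 : HasSum (fun k => d k ^ 2 * a k) s) (hs : s ≤ τ ^ 2) {k : ℕ} (hk : ∀ l, l ≠ k → 28 ≤ |d l|) :
    1 - a k ≤ τ ^ 2 / 784 := by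
  have h3 : HasSum (fun l => 784 * (a l - if l = k then a k else 0)) (784 * (1 - a k)) :=
    (h1.sub (hasSum_ite_eq k (a k))).mul_left 784
  have h4 : ∀ l, 784 * (a l - if l = k then a k else 0) ≤ d l ^ 2 * a l := by
    intro l
    split_ifs with h
    · rw [h, sub_self, mul_zero]
      exact mul_nonneg (sq_nonneg _) (h0 k)
    · rw [sub_zero]
      apply mul_le_mul_of_nonneg_right _ (h0 l)
      rw [← sq_abs (d l)]
      have := hk l h
      nlinarith
  have h5 := hasSum_le h4 h3 h2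
  linarith

/-- the abstract part -/
theorem abstract {lam : ℕ → ℝ} {A : ℕ → ℕ → ℝ} {τ : ℝ} (hτ : 0 < τ) (hτ1 : τ ≤ 1) (hm : Monotone lam)
    (h0 : ∀ j k, 0 ≤ A j k) (hrow : ∀ j, HasSum (fun k => A j k) 1)
    (hcol : ∀ k, HasSum (fun j => A j k) 1)
    (hrow2 : ∀ j, ∃ s ≤ τ ^ 2, HasSum (fun k => (lam j - mu k) ^ 2 * A j k) s)
    (hcol2 : ∀ k, ∃ s ≤ τ ^ 2, HasSum (fun j => (lam j - mu k) ^ 2 * A j k) s) (j : ℕ) :
    1 - A j j ≤ τ ^ 2 / 784 := by
  have far : ∀ j k, |lam j - mu k| ≤ τ → ∀ l, l ≠ k → 28 ≤ |lam j - mu l| := by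
    intro j k h l hl
    rw [abs_le] at h
    rw [le_abs]
    rcases lt_or_gt_of_ne hl with h1 | h1
    · left
      have := gap h1
      linarith [h.1]
    · right
      have := gap h1
      linarith [h.2]
  have uniq : ∀ j k l, |lam j - mu k| ≤ τ → |lam j - mu l| ≤ τ → l = k := by
    intro j k l h1 h2
    by_contra hne
    have := far j k h1 l hne
    linarith
  have near : ∀ j, ∃ k, |lam j - mu k| ≤ τ := by
    intro j
    obtain ⟨s, hs, h⟩ := hrow2 j
    exact ex_of (h0 j) (hrow j) h hs hτ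
  have near' : ∀ k, ∃ j, |lam j - mu k| ≤ τ := by
    intro k
    obtain ⟨s, hs, h⟩ := hcol2 k
    exact ex_of (fun j => h0 j k) (hcol k) h hs hτ
  have big : ∀ j k, |lam j - mu k| ≤ τ → 1 - A j k ≤ τ ^ 2 / 784 := by
    intro j k h1
    obtain ⟨s, hs, h⟩ := hrow2 j
    exact rest (h0 j) (hrow j) h hs (far j k h1)
  choose κ hκ using near
  have hinj : Function.Injective κ := by
    intro i j hij
    by_contra hne
    have b1 := big i (κ i) (hκ i)
    have b2 := big j (κ i) (by rw [hij]; exact hκ j)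
    have h1 : A i (κ i) + A j (κ i) ≤ 1 := by
      have h2 := sum_le_hasSum ({i, j} : Finset ℕ) (fun l _ => h0 l (κ i)) (hcol (κ i))
      rwa [Finset.sum_pair hne] at h2
    nlinarith
  have hmono : Monotone κ := by
    intro i j hij
    by_contra hlt
    push Not at hlt
    have h1 := gap hlt
    have h2 := hm hij
    have h3 := (abs_le.1 (hκ i)).1
    have h4 := (abs_le.1 (hκ j)).2
    linarith
  have hsurj : Function.Surjective κ := by
    intro k
    obtain ⟨j, hj⟩ := near' k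
    exact ⟨j, (uniq j k (κ j) hj (hκ j))⟩
  have hstrict : StrictMono κ := hmono.strictMono_of_injective hinj
  have hid : κ j = j := by
    have h1 := Subsingleton.elim (StrictMono.orderIsoOfSurjective κ hstrict hsurj) (OrderIso.refl ℕ)
    have h2 := congrArg (fun e : ℕ ≃o ℕ => e j) h1
    exact h2
  have := big j (κ j) (hκ j)
  rwa [hid] at this

end Pool.Agent.U742.SP
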