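import Mathlib

/-! Parseval's identity for the sine series of a continuous function on `[0, 1]`. -/

set_option autoImplicit false

open MeasureTheory Set Filter Topology intervalIntegral

namespace Pool.Agent.U742.SP

/-- the odd extension -/
noncomputable def odd (f : ℝ → ℝ) (x : ℝ) : ℂ := if x ≤ 0 then -((f (-x) : ℝ) : ℂ) else ((f x : ℝ) : ℂ)

lemma odd_measurable {f : ℝ → ℝ} (hf : Continuous f) : Measurable (odd f) := by
  unfold odd
  refine Measurable.ite measurableSet_Iic ?_ ?_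
  · exact (Complex.continuous_ofReal.comp (hf.comp continuous_neg)).neg.measurable
  · exact (Complex.continuous_ofReal.comp hf).measurable

lemma odd_memLp {f : ℝ → ℝ} (hf : Continuous f) :
    MemLp (odd f) 2 (volume.restrict (Ioc (-1 : ℝ) 1)) := by
  obtain ⟨C, hC⟩ := isCompact_Icc.exists_bound_of_continuousOn (s := Icc (-1 : ℝ) 1) hf.continuousOn
  have : IsFiniteMeasure (volume.restrict (Ioc (-1 : ℝ) 1)) := ⟨by simp⟩
  refine MemLp.of_bound (odd_measurable hf).aestronglyMeasurable C ?_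
  rw [ae_restrict_iff' measurableSet_Ioc]
  refine Filter.Eventually.of_forall fun x hx => ?_
  unfold odd
  split_ifs with h
  · rw [norm_neg, Complex.norm_real]
    exact hC (-x) ⟨by linarith [hx.2], by linarith [hx.1]⟩
  · rw [Complex.norm_real]
    exact hC x ⟨hx.1.le, hx.2⟩

lemma coeff {f : ℝ → ℝ} (hf : Continuous f) (n : ℤ) :
    fourierCoeffOn (show (-1 : ℝ) < 1 by norm_num) (odd f) n =
      -Complex.I * ((∫ x in (0 : ℝ)..1, f x * Real.sin (Real.pi * n * x) : ℝ) : ℂ) := by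
  rw [fourierCoeffOn_eq_integral]
  have e0 : ∀ x : ℝ, fourier (-n) (x : AddCircle ((1 : ℝ) - -1)) = Complex.exp (-(Real.pi * n * x * Complex.I)) := by
    intro x
    rw [fourier_coe_apply]
    congr 1
    push_cast
    ring
  have hI : IntervalIntegrable (fun x : ℝ => fourier (-n) (x : AddCircle ((1 : ℝ) - -1)) • odd f x) volume (-1) 1 := by
    rw [intervalIntegrable_iff_integrableOn_Ioc_of_le (by norm_num)]
    have h1 : Integrable (odd f) (volume.restrict (Ioc (-1 : ℝ) 1)) :=
      (odd_memLp hf).integrable (by norm_num)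
    simp only [smul_eq_mul]
    refine h1.bdd_mul (c := 1) ?_ ?_
    · apply Continuous.aestronglyMeasurable
      simp only [e0]
      fun_prop
    · refine Filter.Eventually.of_forall fun x => ?_
      rw [e0, Complex.norm_exp]
      simp
  have hI1 : IntervalIntegrable (fun x : ℝ => fourier (-n) (x : AddCircle ((1 : ℝ) - -1)) • odd f x) volume (-1) 0 :=
    hI.mono_set (by rw [uIcc_of_le (by norm_num), uIcc_of_le (by norm_num)]; exact Icc_subset_Icc le_rfl (by norm_num))
  have hI2 : IntervalIntegrable (fun x : ℝ => fourier (-n) (x : AddCircle ((1 : ℝ) - -1)) • odd f x) volume 0 1 :=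
    hI.mono_set (by rw [uIcc_of_le (by norm_num), uIcc_of_le (by norm_num)]; exact Icc_subset_Icc (by norm_num) le_rfl)
  rw [← intervalIntegral.integral_add_adjacent_intervals hI1 hI2]
  have e1 : ∫ x in (-1 : ℝ)..0, fourier (-n) (x : AddCircle ((1 : ℝ) - -1)) • odd f x =
      ∫ x in (0 : ℝ)..1, -(Complex.exp (Real.pi * n * x * Complex.I) * (f x : ℂ)) := by
    have h2 := intervalIntegral.integral_comp_neg (a := 0) (b := 1)
      (fun x : ℝ => fourier (-n) (x : AddCircle ((1 : ℝ) - -1)) • odd f x)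
    rw [neg_zero] at h2
    rw [← h2]
    apply intervalIntegral.integral_congr
    intro x hx
    rw [uIcc_of_le zero_le_one] at hx
    simp only
    rw [e0]
    unfold odd
    rw [if_pos (by linarith [hx.1]), neg_neg, smul_eq_mul, mul_neg]
    congr 3
    push_cast
    ring
  have e2 : ∫ x in (0 : ℝ)..1, fourier (-n) (x : AddCircle ((1 : ℝ) - -1)) • odd f x =
      ∫ x in (0 : ℝ)..1, Complex.exp (-(Real.pi * n * x * Complex.I)) * (f x : ℂ) := by
    rw [intervalIntegral.integral_of_le zero_le_one, intervalIntegral.integral_of_le zero_le_one]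
    apply setIntegral_congr_fun measurableSet_Ioc
    intro x hx
    simp only
    rw [e0]
    unfold odd
    rw [if_neg (by linarith [hx.1]), smul_eq_mul]
  rw [e1, e2, ← intervalIntegral.integral_add (by apply Continuous.intervalIntegrable; fun_prop)
    (by apply Continuous.intervalIntegrable; fun_prop)]
  have e3 : ∀ x : ℝ, -(Complex.exp (Real.pi * n * x * Complex.I) * (f x : ℂ)) +
      Complex.exp (-(Real.pi * n * x * Complex.I)) * (f x : ℂ) =
      (-2 * Complex.I) * ((f x * Real.sin (Real.pi * n * x) : ℝ) : ℂ) := by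
    intro x
    have h1 : Complex.exp (Real.pi * n * x * Complex.I) = Complex.cos (Real.pi * n * x) +
        Complex.sin (Real.pi * n * x) * Complex.I := Complex.exp_mul_I _
    have h2 : Complex.exp (-(Real.pi * n * x * Complex.I)) = Complex.cos (Real.pi * n * x) -
        Complex.sin (Real.pi * n * x) * Complex.I := by
      rw [← neg_mul, Complex.exp_mul_I, Complex.cos_neg, Complex.sin_neg]
      ring
    rw [h1, h2]
    push_cast
    ring
  simp_rw [e3]
  rw [intervalIntegral.integral_const_mul, intervalIntegral.integral_ofReal]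
  norm_num
  ring

/-- Parseval for the sine series of a continuous function. -/
theorem parseval {f : ℝ → ℝ} (hf : Continuous f) :
    HasSum (fun k : ℕ => 2 * (∫ x in (0 : ℝ)..1, f x * Real.sin (Real.pi * (k + 1) * x)) ^ 2)
      (∫ x in (0 : ℝ)..1, f x ^ 2) := by
  have h := hasSum_sq_fourierCoeffOn (show (-1 : ℝ) < 1 by norm_num) (odd_memLp hf)
  have e1 : ∀ n : ℤ, ‖fourierCoeffOn (show (-1 : ℝ) < 1 by norm_num) (odd f) n‖ ^ 2 =
      (∫ x in (0 : ℝ)..1, f x * Real.sin (Real.pi * n * x)) ^ 2 := by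
    intro n
    rw [coeff hf, norm_mul, norm_neg, Complex.norm_I, one_mul, Complex.norm_real, Real.norm_eq_abs, sq_abs]
  have e2 : ((1 : ℝ) - -1)⁻¹ • ∫ x in (-1 : ℝ)..1, ‖odd f x‖ ^ 2 = ∫ x in (0 : ℝ)..1, f x ^ 2 := by
    have hn : ∀ x : ℝ, ‖odd f x‖ ^ 2 = if x ≤ 0 then f (-x) ^ 2 else f x ^ 2 := by
      intro x
      unfold odd
      split_ifs with h
      · rw [norm_neg, Complex.norm_real, Real.norm_eq_abs, sq_abs]
      · rw [Complex.norm_real, Real.norm_eq_abs, sq_abs]
    have hI : IntervalIntegrable (fun x : ℝ => ‖odd f x‖ ^ 2) volume (-1) 1 := by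
      rw [intervalIntegrable_iff_integrableOn_Ioc_of_le (by norm_num)]
      exact (odd_memLp hf).integrable_norm_pow (by norm_num)
    have hI1 : IntervalIntegrable (fun x : ℝ => ‖odd f x‖ ^ 2) volume (-1) 0 :=
      hI.mono_set (by rw [uIcc_of_le (by norm_num), uIcc_of_le (by norm_num)]; exact Icc_subset_Icc le_rfl (by norm_num))
    have hI2 : IntervalIntegrable (fun x : ℝ => ‖odd f x‖ ^ 2) volume 0 1 :=
      hI.mono_set (by rw [uIcc_of_le (by norm_num), uIcc_of_le (by norm_num)]; exact Icc_subset_Icc (by norm_num) le_rfl)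
    rw [← intervalIntegral.integral_add_adjacent_intervals hI1 hI2]
    have a1 : ∫ x in (-1 : ℝ)..0, ‖odd f x‖ ^ 2 = ∫ x in (0 : ℝ)..1, f x ^ 2 := by
      have h2 := intervalIntegral.integral_comp_neg (a := 0) (b := 1) (fun x : ℝ => ‖odd f x‖ ^ 2)
      rw [neg_zero] at h2
      rw [← h2]
      apply intervalIntegral.integral_congr
      intro x hx
      rw [uIcc_of_le zero_le_one] at hx
      simp only
      rw [hn, if_pos (by linarith [hx.1]), neg_neg]
    have a2 : ∫ x in (0 : ℝ)..1, ‖odd f x‖ ^ 2 = ∫ x in (0 : ℝ)..1, f x ^ 2 := by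
      rw [intervalIntegral.integral_of_le zero_le_one, intervalIntegral.integral_of_le zero_le_one]
      apply setIntegral_congr_fun measurableSet_Ioc
      intro x hx
      simp only
      rw [hn, if_neg (by linarith [hx.1])]
    rw [a1, a2]
    norm_num
    ring
  rw [e2] at h
  simp_rw [e1] at h
  have h3 := h.nat_add_neg
  have e0 : (∫ x in (0 : ℝ)..1, f x * Real.sin (Real.pi * ((0 : ℤ) : ℝ) * x)) = 0 := by simp
  rw [e0] at h3
  have h4 := (hasSum_nat_add_iff' (f := fun n : ℕ => (∫ x in (0 : ℝ)..1, f x * Real.sin (Real.pi * ((n : ℤ) : ℝ) * x)) ^ 2 +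
      (∫ x in (0 : ℝ)..1, f x * Real.sin (Real.pi * ((-(n : ℤ) : ℤ) : ℝ) * x)) ^ 2) 1).2 h3
  have h5 : (∫ x in (0 : ℝ)..1, f x ^ 2) + 0 ^ 2 - ∑ i ∈ Finset.range 1,
      ((∫ x in (0 : ℝ)..1, f x * Real.sin (Real.pi * (((i : ℕ) : ℤ) : ℝ) * x)) ^ 2 +
      (∫ x in (0 : ℝ)..1, f x * Real.sin (Real.pi * ((-((i : ℕ) : ℤ) : ℤ) : ℝ) * x)) ^ 2) =
      ∫ x in (0 : ℝ)..1, f x ^ 2 := by
    simp
  rw [h5] at h4
  have h6 : (fun k : ℕ => 2 * (∫ x in (0 : ℝ)..1, f x * Real.sin (Real.pi * (k + 1) * x)) ^ 2) =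
      fun n : ℕ => (∫ x in (0 : ℝ)..1, f x * Real.sin (Real.pi * (((n + 1 : ℕ) : ℤ) : ℝ) * x)) ^ 2 +
      (∫ x in (0 : ℝ)..1, f x * Real.sin (Real.pi * ((-((n + 1 : ℕ) : ℤ) : ℤ) : ℝ) * x)) ^ 2 := by
   funext k
   have n1 : (∫ x in (0 : ℝ)..1, f x * Real.sin (Real.pi * ((-((k + 1 : ℕ) : ℤ) : ℤ) : ℝ) * x)) =
      -(∫ x in (0 : ℝ)..1, f x * Real.sin (Real.pi * (((k + 1 : ℕ) : ℤ) : ℝ) * x)) := by
    rw [← intervalIntegral.integral_neg]
    congr 1
    funext x
    have : Real.pi * ((-((k + 1 : ℕ) : ℤ) : ℤ) : ℝ) * x = -(Real.pi * (((k + 1 : ℕ) : ℤ) : ℝ) * x) := by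
      push_cast
      ring
    rw [this, Real.sin_neg]
    ring
   rw [n1]
   push_cast
   ring
  rw [h6]
  exact h4

end Pool.Agent.U742.SP
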